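import Mathlib

/-! Almost everywhere differentiability of a map whose graph is a Lipschitz graph. -/

namespace Pool.Agent.MP_3ee8cb_gt.CZA

open Set MeasureTheory Filter Topology Function
open scoped ENNReal NNReal

variable {E G F : Type} [NormedAddCommGroup E] [NormedSpace ℝ E] [FiniteDimensional ℝ E]
  [NormedAddCommGroup G] [NormedSpace ℝ G] [FiniteDimensional ℝ G]
  [NormedAddCommGroup F] [NormedSpace ℝ F] [FiniteDimensional ℝ F]

omit [NormedSpace ℝ E] [FiniteDimensional ℝ E] [NormedSpace ℝ G] [FiniteDimensional ℝ G] in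
/-- A map controlled by a chart factors through it by a global Lipschitz map. -/
theorem fac {U : Set E} {c : E → G} {p : E → F} {K : ℝ}
    (h : ∀ v ∈ U, ∀ w ∈ U, ‖p v - p w‖ ≤ K * ‖c v - c w‖) :
    ∃ (q : G → F) (L : ℝ≥0), LipschitzWith L q ∧ ∀ v ∈ U, q (c v) = p v := by
  have e : ∀ v ∈ U, p (invFunOn c U (c v)) = p v := fun v hv => by
    have h1 : invFunOn c U (c v) ∈ U := invFunOn_mem ⟨v, hv, rfl⟩
    have h2 : c (invFunOn c U (c v)) = c v := invFunOn_eq ⟨v, hv, rfl⟩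
    have := h _ h1 v hv
    rw [h2, sub_self, norm_zero, mul_zero] at this
    exact sub_eq_zero.1 (norm_le_zero_iff.1 this)
  have l : LipschitzOnWith K.toNNReal (fun y => p (invFunOn c U y)) (c '' U) := by
    refine LipschitzOnWith.of_dist_le_mul ?_
    rintro _ ⟨v, hv, rfl⟩ _ ⟨w, hw, rfl⟩
    rw [e v hv, e w hw, dist_eq_norm, dist_eq_norm]
    exact (h v hv w hw).trans
      (mul_le_mul_of_nonneg_right (Real.le_coe_toNNReal K) (norm_nonneg _))
  obtain ⟨q, h1, h2⟩ := l.extend_finite_dimension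
  exact ⟨q, _, h1, fun v hv => by rw [← h2 (mem_image_of_mem c hv)]; exact e v hv⟩

variable [MeasurableSpace E] [BorelSpace E] [MeasurableSpace G] [BorelSpace G]
  (μ : Measure E) [μ.IsAddHaarMeasure] (ν : Measure G) [ν.IsAddHaarMeasure]

/-- A Lipschitz map between spaces of the same dimension sends null sets to null sets. -/
theorem lip_null (hd : Module.finrank ℝ G = Module.finrank ℝ E) {k : G → E} {L : ℝ≥0}
    {s : Set G} (hk : LipschitzOnWith L k s) (hs : ν s = 0) : μ (k '' s) = 0 := by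
  have a1 : (μH[Module.finrank ℝ G] : Measure G) s = 0 :=
    Measure.absolutelyContinuous_isAddHaarMeasure _ ν hs
  have a2 := hk.hausdorffMeasure_image_le (d := Module.finrank ℝ G) (by positivity)
  rw [a1, mul_zero, hd] at a2
  exact Measure.absolutelyContinuous_isAddHaarMeasure μ _ (le_zero_iff.1 a2)

omit [MeasurableSpace G] [BorelSpace G] in
/-- Sard for pointwise differentiable maps between spaces of the same dimension. -/
theorem sard (hd : Module.finrank ℝ G = Module.finrank ℝ E) (k : G → E) :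
    μ (k '' {y | DifferentiableAt ℝ k y ∧ ¬ ∃ D : G ≃L[ℝ] E, HasFDerivAt k (D : G →L[ℝ] E) y})
      = 0 := by
  let e : E ≃L[ℝ] G := ContinuousLinearEquiv.ofFinrankEq hd.symm
  have := addHaar_image_eq_zero_of_det_fderivWithin_eq_zero μ (f := k ∘ e)
    (f' := fun x => (fderiv ℝ k (e x)).comp (e : E →L[ℝ] G))
    (s := e ⁻¹' {y | DifferentiableAt ℝ k y ∧
      ¬ ∃ D : G ≃L[ℝ] E, HasFDerivAt k (D : G →L[ℝ] E) y})
    (fun x hx => (hx.1.hasFDerivAt.comp x e.hasFDerivAt).hasFDerivWithinAt) fun x hx => by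
      by_contra h0
      refine hx.2 ⟨e.symm.trans
        (((fderiv ℝ k (e x)).comp (e : E →L[ℝ] G)).toContinuousLinearEquivOfDetNeZero h0), ?_⟩
      refine hx.1.hasFDerivAt.congr_fderiv (ContinuousLinearMap.ext fun v => ?_)
      simp
  rwa [image_comp, image_preimage_eq _ e.surjective] at this

/-- For a Lipschitz left inverse `k` of `c`: at almost every point the chart value avoids a given
null set and `k` has an invertible derivative there. -/
theorem ae_good (hd : Module.finrank ℝ G = Module.finrank ℝ E) {U : Set E} {c : E → G}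
    {k : G → E} {L : ℝ≥0} (hk : LipschitzWith L k) (hkc : ∀ v ∈ U, k (c v) = v)
    {P : G → Prop} (hP : ∀ᵐ y ∂ν, P y) :
    ∀ᵐ v ∂μ, v ∈ U → P (c v) ∧ ∃ D : G ≃L[ℝ] E, HasFDerivAt k (D : G →L[ℝ] E) (c v) := by
  have n1 := lip_null μ ν hd hk.lipschitzOnWith (ae_iff.1 (hP.and hk.ae_differentiableAt))
  have n2 := sard μ hd k
  filter_upwards [measure_eq_zero_iff_ae_notMem.1 n1, measure_eq_zero_iff_ae_notMem.1 n2]
    with v h1 h2 hv
  have b1 : P (c v) ∧ DifferentiableAt ℝ k (c v) := by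
    by_contra h
    exact h1 ⟨c v, h, hkc v hv⟩
  refine ⟨b1.1, ?_⟩
  by_contra h
  exact h2 ⟨c v, ⟨b1.2, h⟩, hkc v hv⟩

omit [FiniteDimensional ℝ E] [FiniteDimensional ℝ G] [FiniteDimensional ℝ F] [MeasurableSpace E]
  [BorelSpace E] [MeasurableSpace G] [BorelSpace G] in
/-- The derivative of the chart and of the map at a good point. -/
theorem der_at {U : Set E} {c : E → G} {p : E → F} {k : G → E} {q : G → F} {v : E}
    (hU : U ∈ 𝓝 v) (hc : ContinuousAt c v) (hkc : ∀ v ∈ U, k (c v) = v)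
    (hq : ∀ v ∈ U, q (c v) = p v) {D : G ≃L[ℝ] E} {Q : G →L[ℝ] F}
    (hD : HasFDerivAt k (D : G →L[ℝ] E) (c v)) (hQ : HasFDerivAt q Q (c v)) :
    HasFDerivAt c (D.symm : E →L[ℝ] G) v ∧ HasFDerivAt p (Q.comp (D.symm : E →L[ℝ] G)) v := by
  have h1 := HasFDerivAt.of_local_left_inverse hc hD (mem_of_superset hU hkc)
  refine ⟨h1, (hQ.comp v h1).congr_of_eventuallyEq ?_⟩
  filter_upwards [hU] with w hw using (hq w hw).symm

omit [MeasurableSpace G] [BorelSpace G] in
/-- Main form: the graph of `p` over the open set `U` is a Lipschitz graph over the chart `c`. -/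
theorem graph (hd : Module.finrank ℝ G = Module.finrank ℝ E) {U : Set E} (hU : IsOpen U)
    {c : E → G} {p : E → F} {K : ℝ} (hc : ContinuousOn c U)
    (h1 : ∀ v ∈ U, ∀ w ∈ U, ‖v - w‖ ≤ K * ‖c v - c w‖)
    (h2 : ∀ v ∈ U, ∀ w ∈ U, ‖p v - p w‖ ≤ K * ‖c v - c w‖) :
    ∃ (k : G → E) (q : G → F) (L L' : ℝ≥0), LipschitzWith L k ∧ LipschitzWith L' q ∧
      (∀ v ∈ U, k (c v) = v) ∧ (∀ v ∈ U, q (c v) = p v) ∧
      ∀ᵐ v ∂μ, v ∈ U → ∃ (D : G ≃L[ℝ] E) (Q : G →L[ℝ] F),
        HasFDerivAt k (D : G →L[ℝ] E) (c v) ∧ HasFDerivAt q Q (c v) ∧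
        HasFDerivAt c (D.symm : E →L[ℝ] G) v ∧ HasFDerivAt p (Q.comp (D.symm : E →L[ℝ] G)) v := by
  borelize G
  obtain ⟨k, L, k1, k2⟩ := fac (p := fun v => v) h1
  obtain ⟨q, L', q1, q2⟩ := fac h2
  refine ⟨k, q, L, L', k1, q1, k2, q2, ?_⟩
  filter_upwards [ae_good μ (Measure.addHaar : Measure G) hd k1 k2 q1.ae_differentiableAt]
    with v h hv
  obtain ⟨h3, D, hD⟩ := h hv
  have n := hU.mem_nhds hv
  exact ⟨D, _, hD, h3.hasFDerivAt, der_at n (hc.continuousAt n) k2 q2 hD h3.hasFDerivAt⟩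

omit [MeasurableSpace G] [BorelSpace G] in
/-- Short form: such a map is differentiable almost everywhere. -/
theorem ae_diff (hd : Module.finrank ℝ G = Module.finrank ℝ E) {U : Set E} (hU : IsOpen U)
    {c : E → G} {p : E → F} {K : ℝ} (hc : ContinuousOn c U)
    (h1 : ∀ v ∈ U, ∀ w ∈ U, ‖v - w‖ ≤ K * ‖c v - c w‖)
    (h2 : ∀ v ∈ U, ∀ w ∈ U, ‖p v - p w‖ ≤ K * ‖c v - c w‖) :
    ∀ᵐ v ∂μ, v ∈ U → DifferentiableAt ℝ p v := by
  obtain ⟨k, q, L, L', -, -, -, -, h⟩ := graph μ hd hU hc h1 h2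
  filter_upwards [h] with v h hv
  obtain ⟨D, Q, -, -, -, h⟩ := h hv
  exact h.differentiableAt

/-- A property that holds almost everywhere near every point of a set holds almost everywhere on
the set. -/
theorem ae_loc {X : Type} [TopologicalSpace X] [SecondCountableTopology X] [MeasurableSpace X]
    (m : Measure X) {S : Set X} {P : X → Prop}
    (h : ∀ x ∈ S, ∃ U ∈ 𝓝 x, ∀ᵐ v ∂m, v ∈ U → P v) : ∀ᵐ v ∂m, v ∈ S → P v := by
  rw [ae_iff]
  refine measure_null_of_locally_null _ fun x hx => ?_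
  obtain ⟨U, h1, h2⟩ := h x (by by_contra h0; exact hx fun h => (h0 h).elim)
  refine ⟨_, ?_, ae_iff.1 h2⟩
  filter_upwards [mem_nhdsWithin_of_mem_nhds h1, self_mem_nhdsWithin] with v a b h3
  exact b fun _ => h3 a

end Pool.Agent.MP_3ee8cb_gt.CZA
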