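import Pool.Agent.MP_3ee8cb_gt.CZL.Spec
import Pool.Agent.MP_3ee8cb_gt.CZO.Link
import Pool.Agent.MP_3ee8cb_gt.CZA.Ae
import Pool.Agent.MP_3ee8cb_gt.CZI.Dom
import Pool.Agent.MP_3ee8cb_gt.CZP.Peano
import Pool.Agent.MP_3ee8cb_gt.D3LN.Green

/-! Almost every unit vector is good. -/

namespace Pool.Agent.MP_3ee8cb_gt.CZA

open Set MeasureTheory Filter Topology D3 CZO CZL Asymptotics
open D3.LN (al d_al)
open scoped RealInnerProductSpace

noncomputable section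

variable {m m' : MF} {φ : V × V → V × V} {a : ℝ}

/-- The derivative exists and is contact and symplectic. -/
structure CS (m m' : MF) (φ : V × V → V × V) (z : V × V) : Prop where
  dif : DifferentiableAt ℝ φ z
  al : ∀ ξ, ⟪(φ z).2, m'.hor (φ z) (fderiv ℝ φ z ξ)⟫ = ⟪z.2, m.hor z ξ⟫
  om : ∀ ξ η, ⟪m'.hor (φ z) (fderiv ℝ φ z ξ), m'.ver (φ z) (fderiv ℝ φ z η)⟫ -
      ⟪m'.ver (φ z) (fderiv ℝ φ z ξ), m'.hor (φ z) (fderiv ℝ φ z η)⟫ =
    ⟪m.hor z ξ, m.ver z η⟫ - ⟪m.ver z ξ, m.hor z η⟫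

theorem haar : (volume : Measure (V × V)).IsAddHaarMeasure :=
  Measure.prod.instIsAddHaarMeasure _ _

/-- Almost everywhere in a Lipschitz chart. -/
theorem cs_ae (o : m.OK) (o' : m'.OK) {U : Set (V × V)} (hU : IsOpen U) {c : V × V → V × V}
    {K : ℝ} (hc : ContinuousOn c U)
    (h : ∀ v ∈ U, ∀ w ∈ U, ‖v - w‖ ≤ K * ‖c v - c w‖ ∧ ‖φ v - φ w‖ ≤ K * ‖c v - c w‖ ∧
      |al m' (φ w) (φ v - φ w) - al m w (v - w)| ≤ K * ‖c v - c w‖ ^ 2) :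
    ∀ᵐ v : V × V, v ∈ U → CS m m' φ v := by
  have := haar
  obtain ⟨k, q, L, L', -, -, k1, q1, ae⟩ := graph (volume : Measure (V × V)) rfl hU hc
    (fun v hv w hw => (h v hv w hw).1) fun v hv w hw => (h v hv w hw).2.1
  filter_upwards [ae] with v h0 hv
  obtain ⟨D, Q, dk, dq, -, dφ⟩ := h0 hv
  have nb : c '' U ∈ 𝓝 (c v) := CZI.image_mem_nhds rfl (hU.mem_nhds hv) hc fun x hx y hy e => by
    have := (h x hx y hy).1
    rw [e, sub_self, norm_zero, mul_zero] at this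
    exact sub_eq_zero.1 (norm_le_zero_iff.1 this)
  obtain ⟨α, a1, a2⟩ := d_al o v
  obtain ⟨β, b1, b2⟩ := d_al o' (φ v)
  let r : V × V → (V × V) × V × V →L[ℝ] ℝ := fun u =>
    (al m' (q u)).comp (.fst ℝ _ _) - (al m (k u)).comp (.snd ℝ _ _)
  have dr : HasFDerivAt r _ (c v) :=
    ((HasFDerivAt.comp (c v) (by rw [q1 v hv]; exact b1) dq).clm_comp
      (hasFDerivAt_const _ _)).sub
    ((HasFDerivAt.comp (c v) (by rw [k1 v hv]; exact a1) dk).clm_comp (hasFDerivAt_const _ _))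
  have bd : ∀ u ∈ c '' U, ∀ u' ∈ c '' U,
      |r u ((q u', k u') - (q u, k u))| ≤ K * ‖u' - u‖ ^ 2 ∧
        ‖(q u', k u') - (q u, k u)‖ ≤ K * ‖u' - u‖ := by
    rintro _ ⟨w, hw, rfl⟩ _ ⟨w', hw', rfl⟩
    obtain ⟨h1, h2, h3⟩ := h w' hw' w hw
    simp only [r, k1 _ hw, k1 _ hw', q1 _ hw, q1 _ hw']
    exact ⟨h3, max_le h2 h1⟩
  have pe := CZP.peano (ContinuousLinearMap.id ℝ ((V × V) × V × V →L[ℝ] ℝ)) (k := fun _ => 0)
    (C := K) (L := K) dr (dq.prodMk dk) (by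
      rw [nhds_prod_eq]
      filter_upwards [prod_mem_prod nb nb] with p hp
      obtain ⟨h1, h2⟩ := bd _ hp.1 _ hp.2
      exact ⟨by rwa [sub_self, zero_sub, abs_neg], h2⟩)
  have d0 : HasFDerivAt (fun u => r (c v) ((q u, k u) - (q (c v), k (c v))))
      (0 : V × V →L[ℝ] ℝ) (c v) := by
    refine IsBigO.hasFDerivAt (n := 2) (IsBigO.of_bound K ?_) one_lt_two
    filter_upwards [nb] with u hu
    rw [Real.norm_of_nonneg (sq_nonneg _)]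
    exact (bd _ (mem_image_of_mem c hv) u hu).1
  have d1 := d0.unique ((r (c v)).hasFDerivAt.comp (c v) ((dq.prodMk dk).sub_const _))
  refine ⟨dφ.differentiableAt, fun ξ => ?_, fun ξ η => ?_⟩
  · have := DFunLike.congr_fun d1 (D.symm ξ)
    simp only [r, k1 v hv, q1 v hv] at this
    rw [dφ.fderiv]
    simpa [al, sub_eq_zero] using this.symm
  · have := pe (D.symm η) (D.symm ξ)
    rw [← a2, ← b2, dφ.fderiv]
    simp at this
    simp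
    linarith

/-- The chart on unit vectors controls the chart on all vectors. -/
theorem vec {w w' w₀ u : V} {r r' δ : ℝ} (h : ‖w‖ = 1) (h' : ‖w'‖ = 1) (h₀ : ‖w₀‖ = 1)
    (d : ‖w - w₀‖ ≤ δ) (d' : ‖w' - w₀‖ ≤ δ) (hr : |r - 1| ≤ δ) (hδ : δ ≤ 1 / 2)
    (hu : ⟪u, w₀⟫ = 0) : |r' - r| ≤ 2 * ‖r' • w' - r • w + u‖ + 4 * δ * ‖w' - w‖ ∧
      ‖w' - w + u‖ ≤ 3 * ‖r' • w' - r • w + u‖ + 5 * δ * ‖w' - w‖ := by
  have δ0 : 0 ≤ δ := (norm_nonneg _).trans d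
  have n := norm_nonneg (w' - w)
  have i1 : |⟪w' - w, w₀⟫| ≤ δ * ‖w' - w‖ := by
    have e : 2 * ⟪w' - w, w₀⟫ = -(⟪w' - w, w - w₀⟫ + ⟪w' - w, w' - w₀⟫) := by
      simp only [inner_sub_left, inner_sub_right, real_inner_self_eq_norm_sq, h, h',
        real_inner_comm w w']
      ring
    have a1 := abs_le.1 ((abs_real_inner_le_norm (w' - w) (w - w₀)).trans
      (mul_le_mul_of_nonneg_left d n))
    have a2 := abs_le.1 ((abs_real_inner_le_norm (w' - w) (w' - w₀)).trans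
      (mul_le_mul_of_nonneg_left d' n))
    exact abs_le.2 ⟨by linarith [a1.2, a2.2], by linarith [a1.1, a2.1]⟩
  have i2 : 1 / 2 ≤ ⟪w', w₀⟫ := by
    have a1 := abs_le.1 (abs_real_inner_le_norm (w' - w₀) w₀)
    rw [inner_sub_left, real_inner_self_eq_norm_sq, h₀] at a1
    linarith [a1.1]
  have i3 := abs_real_inner_le_norm (r' • w' - r • w + u) w₀
  have e3 : ⟪r' • w' - r • w + u, w₀⟫ = (r' - r) * ⟪w', w₀⟫ + r * ⟪w' - w, w₀⟫ := by
    simp only [inner_add_left, inner_sub_left, real_inner_smul_left, hu]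
    ring
  rw [e3, h₀, mul_one] at i3
  have r2 : |r| ≤ 2 := abs_le.2 ⟨by linarith [(abs_le.1 hr).1], by linarith [(abs_le.1 hr).2]⟩
  have i4 : |r * ⟪w' - w, w₀⟫| ≤ 2 * (δ * ‖w' - w‖) := by
    rw [abs_mul]
    exact mul_le_mul r2 i1 (abs_nonneg _) zero_le_two
  have i5 : |r' - r| * (1 / 2) ≤ |(r' - r) * ⟪w', w₀⟫| := by
    rw [abs_mul]
    exact mul_le_mul_of_nonneg_left (i2.trans (le_abs_self _)) (abs_nonneg _)
  have i6 := abs_sub ((r' - r) * ⟪w', w₀⟫ + r * ⟪w' - w, w₀⟫) (r * ⟪w' - w, w₀⟫)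
  rw [add_sub_cancel_right] at i6
  have i7 : |r' - r| ≤ 2 * ‖r' • w' - r • w + u‖ + 4 * δ * ‖w' - w‖ := by linarith
  refine ⟨i7, ?_⟩
  have e : w' - w + u = r' • w' - r • w + u - (r' - r) • w' - (r - 1) • (w' - w) := by module
  have t := (norm_sub_le _ ((r - 1) • (w' - w))).trans
    (add_le_add (norm_sub_le (r' • w' - r • w + u) ((r' - r) • w')) le_rfl)
  rw [← e, norm_smul, norm_smul, h', mul_one, Real.norm_eq_abs, Real.norm_eq_abs] at t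
  linarith [mul_le_mul_of_nonneg_right hr n]

theorem rad {b b' : V} {r r' : ℝ} (h' : ‖b'‖ = 1) (hr : |r| ≤ 2) :
    ‖r' • b' - r • b‖ ≤ |r' - r| + 2 * ‖b' - b‖ := by
  have e : r' • b' - r • b = (r' - r) • b' + r • (b' - b) := by module
  rw [e]
  refine (norm_add_le _ _).trans ?_
  rw [norm_smul, norm_smul, h', mul_one]
  exact add_le_add le_rfl (mul_le_mul_of_nonneg_right hr (norm_nonneg _))

theorem sq_le {c A E X C : ℝ} (hc : 0 < c) (hE : 0 ≤ E) (hX : 0 ≤ X)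
    (h : c * A ^ 2 ≤ 2 * E ^ 2 + C * X ^ 2) : A ≤ √((2 + |C|) / c) * (E + X) := by
  rw [← Real.sqrt_sq (add_nonneg hE hX), ← Real.sqrt_mul (by positivity)]
  refine Real.le_sqrt_of_sq_le ?_
  rw [div_mul_eq_mul_div, le_div_iff₀ hc]
  nlinarith [le_abs_self C, abs_nonneg C, mul_nonneg hE hX, sq_nonneg E, sq_nonneg X,
    mul_nonneg (abs_nonneg C) (mul_nonneg hE hX), mul_nonneg (abs_nonneg C) (sq_nonneg E),
    mul_le_mul_of_nonneg_right (le_abs_self C) (sq_nonneg X)]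

/-- The first consequence, on unit vectors. -/
theorem unit_bd (o' : m'.OK) (ha : 0 < a) {c C : ℝ} (hc : 0 < c) {z₀ : V × V}
    (h : Two m m' φ a c C 1 z₀) : ∃ K, 0 < K ∧ ∀ᶠ p in 𝓝[U2] (z₀, z₀),
      ‖p.2 - p.1‖ ≤ K * (‖m'.ver (φ z₀) (φ p.2 - φ p.1)‖ + ‖p.2.1 - p.1.1‖) ∧
      ‖φ p.2 - φ p.1‖ ≤ K * (‖m'.ver (φ z₀) (φ p.2 - φ p.1)‖ + ‖p.2.1 - p.1.1‖) ∧
      |⟪(φ p.1).2, m'.hor (φ p.1) (φ p.2 - φ p.1)⟫ - ⟪p.1.2, m.hor p.1 (p.2 - p.1)⟫| ≤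
        K * (‖m'.ver (φ z₀) (φ p.2 - φ p.1)‖ + ‖p.2.1 - p.1.1‖) ^ 2 := by
  set k₁ := √((2 + |C|) / c)
  set k₂ := ‖m'.R (φ z₀).1‖ * √((2 + |C|) / a ^ 2)
  set k₃ := ‖(m'.om (φ z₀).1).flip (φ z₀).2‖ * k₂
  have p1 : 0 ≤ k₁ := by positivity
  have p2 : 0 ≤ k₂ := by positivity
  have p3 : 0 ≤ k₃ := by positivity
  set K := 1 + k₁ + k₂ + k₃
  have K1 : 1 ≤ K := by linarith
  refine ⟨K + 2 * |C| * K ^ 2, by positivity, h.mono fun p hp => ?_⟩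
  obtain ⟨h1, h2⟩ := hp
  set η := φ p.2 - φ p.1
  set E := ‖m'.ver (φ z₀) η‖
  set X := ‖p.2.1 - p.1.1‖
  have E0 : 0 ≤ E := norm_nonneg _
  have X0 : 0 ≤ X := norm_nonneg _
  have S0 := add_nonneg E0 X0
  have b1 : ‖p.2.2 - p.1.2‖ ≤ k₁ * (E + X) := sq_le hc E0 X0
    (by nlinarith [sq_nonneg (a * ‖m'.hor (φ z₀) η‖)])
  have b2 : ‖η.1‖ ≤ k₂ * (E + X) := by
    have := sq_le (A := ‖m'.hor (φ z₀) η‖) (C := C) (pow_pos ha 2) E0 X0
      (by nlinarith [mul_nonneg hc.le (sq_nonneg ‖p.2.2 - p.1.2‖)])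
    have e : η.1 = m'.R (φ z₀).1 (m'.hor (φ z₀) η) := (o'.RS _ _).symm
    rw [e, mul_assoc]
    exact (ContinuousLinearMap.le_opNorm _ _).trans
      (mul_le_mul_of_nonneg_left this (norm_nonneg _))
  have b3 : ‖η.2‖ ≤ E + k₃ * (E + X) := by
    have e : η.2 = m'.ver (φ z₀) η - (m'.om (φ z₀).1).flip (φ z₀).2 η.1 := by simp [MF.ver]
    rw [e, mul_assoc]
    exact (norm_sub_le _ _).trans (add_le_add le_rfl ((ContinuousLinearMap.le_opNorm _ _).trans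
      (mul_le_mul_of_nonneg_left b2 (norm_nonneg _))))
  have q1 := mul_nonneg p1 S0
  have q2 := mul_nonneg p2 S0
  have q3 := mul_nonneg p3 S0
  have c1 : ‖p.2 - p.1‖ ≤ K * (E + X) :=
    max_le (show X ≤ _ by simp only [K]; nlinarith) (b1.trans (by simp only [K]; nlinarith))
  have c2 : ‖η‖ ≤ K * (E + X) :=
    max_le (b2.trans (by simp only [K]; nlinarith)) (b3.trans (by simp only [K]; nlinarith))
  have q4 : 0 ≤ 2 * |C| * K ^ 2 * (E + X) := by positivity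
  refine ⟨c1.trans (by linarith), c2.trans (by linarith), h2.trans ?_⟩
  have s1 := pow_le_pow_left₀ (norm_nonneg _) c1 2
  have s2 := pow_le_pow_left₀ (norm_nonneg _) c2 2
  have s3 := mul_le_mul (le_abs_self C) (add_le_add s1 s2) (by positivity) (abs_nonneg C)
  have s4 : 0 ≤ K * (E + X) ^ 2 := by positivity
  linarith

/-- The normalised vector. -/
def nr (z : V × V) : V × V := (z.1, ‖z.2‖⁻¹ • z.2)

theorem nr_unit {z : V × V} (h : z.2 ≠ 0) : ‖(nr z).2‖ = 1 := norm_smul_inv_norm h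

theorem nr_smul {z : V × V} (h : z.2 ≠ 0) : z = ((nr z).1, ‖z.2‖ • (nr z).2) :=
  Prod.ext rfl (smul_inv_smul₀ (norm_ne_zero_iff.2 h) _).symm

theorem nr_phi (cf : C0F m m' φ) {z : V × V} (h : z.2 ≠ 0) :
    φ z = ((φ (nr z)).1, ‖z.2‖ • (φ (nr z)).2) := by
  conv_lhs => rw [nr_smul h]
  exact cf.hom _ _ _ (norm_pos_iff.2 h) (norm_ne_zero_iff.1 (nr_unit h ▸ one_ne_zero))

/-- The graph is a Lipschitz graph near a unit vector. -/
theorem chart (o' : m'.OK) (cf : C0F m m' φ) (ha : 0 < a) (h : LIPF m m' φ a) {z₀ : V × V}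
    (hz : ‖z₀.2‖ = 1) : ∃ K, ∀ᶠ p : (V × V) × V × V in 𝓝 (z₀, z₀),
      ‖p.2 - p.1‖ ≤ K * ‖(p.2.1, m'.ver (φ z₀) (φ p.2)) - (p.1.1, m'.ver (φ z₀) (φ p.1))‖ ∧
      ‖φ p.2 - φ p.1‖ ≤ K * ‖(p.2.1, m'.ver (φ z₀) (φ p.2)) - (p.1.1, m'.ver (φ z₀) (φ p.1))‖ ∧
      |al m' (φ p.1) (φ p.2 - φ p.1) - al m p.1 (p.2 - p.1)| ≤
        K * ‖(p.2.1, m'.ver (φ z₀) (φ p.2)) - (p.1.1, m'.ver (φ z₀) (φ p.1))‖ ^ 2 := by
  obtain ⟨c, hc, h⟩ := h z₀ hz
  obtain ⟨C, h⟩ := h 0 1 one_pos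
  simp only [o'.zero] at h
  obtain ⟨K, K0, h⟩ := unit_bd o' ha hc h
  have z0 : z₀.2 ≠ 0 := norm_ne_zero_iff.1 (hz ▸ one_ne_zero)
  have n0 : nr z₀ = z₀ := by simp [nr, hz]
  have cn : Tendsto nr (𝓝 z₀) (𝓝 z₀) := by
    have : ContinuousAt nr z₀ := continuousAt_fst.prodMk
      ((continuousAt_snd.norm.inv₀ (norm_ne_zero_iff.2 z0)).smul continuousAt_snd)
    rwa [ContinuousAt, n0] at this
  set δ := min (1 / 2) (1 / (10 * K))
  have δ0 : 0 < δ := by positivity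
  have δ1 : δ ≤ 1 / 2 := min_le_left _ _
  have δ2 : δ * K ≤ 1 / 10 := by
    have := (le_div_iff₀ (by positivity)).1 (min_le_right (1 / 2) (1 / (10 * K)))
    linarith
  have e1 : ∀ᶠ z in 𝓝 z₀, z.2 ≠ 0 ∧ |‖z.2‖ - 1| ≤ δ ∧ ‖(φ (nr z)).2 - (φ z₀).2‖ ≤ δ := by
    have t1 : Tendsto (fun z : V × V => |‖z.2‖ - 1|) (𝓝 z₀) (𝓝 0) := by
      have : Continuous fun z : V × V => |‖z.2‖ - 1| := by fun_prop
      simpa [hz] using this.tendsto z₀
    have t2 := tendsto_iff_norm_sub_tendsto_zero.1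
      (continuous_snd.continuousAt.tendsto.comp ((cf.cont.continuousAt (nb z0)).tendsto.comp cn))
    filter_upwards [nb z0, t1.eventually_le_const δ0, t2.eventually_le_const δ0] with z a b d
      using ⟨a, b, d⟩
  have e2 := (continuous_fst.tendsto (z₀, z₀)).eventually e1
  have e3 := (continuous_snd.tendsto (z₀, z₀)).eventually e1
  have t : Tendsto (fun p : (V × V) × V × V => (nr p.1, nr p.2)) (𝓝 (z₀, z₀))
      (𝓝[U2] (z₀, z₀)) := tendsto_nhdsWithin_iff.2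
    ⟨(cn.comp (continuous_fst.tendsto _)).prodMk_nhds (cn.comp (continuous_snd.tendsto _)), by
      filter_upwards [e2, e3] with p a b using ⟨nr_unit a.1, nr_unit b.1⟩⟩
  refine ⟨3 + 128 * K, ?_⟩
  filter_upwards [e2, e3, t.eventually h] with p a b hp
  obtain ⟨h1, h2, h3⟩ := hp
  obtain ⟨z, z'⟩ := p
  dsimp only at a b h1 h2 h3 ⊢
  have u1 := nr_unit a.1
  have u2 := nr_unit b.1
  have nn : ∀ {z : V × V}, ‖z.2‖ = 1 → ‖(φ z).2‖ = 1 := fun h =>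
    (cf.norm _ (norm_ne_zero_iff.1 (h ▸ one_ne_zero))).trans h
  set u := m'.om (φ z₀).1 ((φ (nr z')).1 - (φ (nr z)).1) (φ z₀).2
  have hu : ⟪u, (φ z₀).2⟫ = 0 := by
    have := o'.skew (φ z₀).1 ((φ (nr z')).1 - (φ (nr z)).1) (φ z₀).2 (φ z₀).2
    rw [real_inner_comm] at this
    rw [real_inner_comm]
    linarith [real_inner_comm u (φ z₀).2]
  obtain ⟨v1, v2⟩ := vec (r' := ‖z'.2‖) (nn u1) (nn u2) (nn hz) a.2.2 b.2.2 a.2.1 δ1 hu
  have f1 : m'.ver (φ z₀) (φ (nr z') - φ (nr z)) = (φ (nr z')).2 - (φ (nr z)).2 + u := by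
    simp [MF.ver, u]
  have f2 : m'.ver (φ z₀) (φ z') - m'.ver (φ z₀) (φ z) =
      ‖z'.2‖ • (φ (nr z')).2 - ‖z.2‖ • (φ (nr z)).2 + u := by
    rw [← map_sub, nr_phi cf a.1, nr_phi cf b.1]
    simp [MF.ver, u]
  rw [← f1] at v2
  rw [← f2] at v1 v2
  set M := ‖(z'.1, m'.ver (φ z₀) (φ z')) - (z.1, m'.ver (φ z₀) (φ z))‖
  have M0 : 0 ≤ M := norm_nonneg _
  have m1 : ‖(nr z').1 - (nr z).1‖ ≤ M := le_max_left _ _
  have m2 : ‖m'.ver (φ z₀) (φ z') - m'.ver (φ z₀) (φ z)‖ ≤ M := le_max_right _ _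
  set S := ‖m'.ver (φ z₀) (φ (nr z') - φ (nr z))‖ + ‖(nr z').1 - (nr z).1‖
  have S0 : 0 ≤ S := by positivity
  have w1 : ‖(φ (nr z')).2 - (φ (nr z)).2‖ ≤ K * S := (le_max_right _ _).trans h2
  have w2 : δ * ‖(φ (nr z')).2 - (φ (nr z)).2‖ ≤ S / 10 :=
    (mul_le_mul_of_nonneg_left w1 δ0.le).trans (by nlinarith)
  have s8 : S ≤ 8 * M := by simp only [S] at w2 ⊢; linarith
  have k8 : K * S ≤ 8 * (K * M) := by nlinarith
  have KM := mul_nonneg K0.le M0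
  have r2 : |‖z.2‖| ≤ 2 := by
    rw [abs_norm]
    linarith [(abs_le.1 a.2.1).2]
  have w3 : |‖z'.2‖ - ‖z.2‖| ≤ 2 * M + 16 * (K * M) := by
    nlinarith [mul_le_mul δ1 w1 (norm_nonneg _) (by norm_num)]
  refine ⟨?_, ?_, ?_⟩
  · rw [nr_smul a.1, nr_smul b.1]
    have w4 : ‖(nr z').2 - (nr z).2‖ ≤ K * S := (le_max_right _ _).trans h1
    exact max_le (m1.trans (by linarith)) ((rad u2 r2).trans (by linarith))
  · rw [nr_phi cf a.1, nr_phi cf b.1]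
    have w4 : ‖(φ (nr z')).1 - (φ (nr z)).1‖ ≤ K * S := (le_max_left _ _).trans h2
    exact max_le (w4.trans (by linarith)) ((rad (nn u2) r2).trans (by linarith))
  · have e : al m' (φ z) (φ z' - φ z) - al m z (z' - z) = ‖z.2‖ *
        (⟪(φ (nr z)).2, m'.hor (φ (nr z)) (φ (nr z') - φ (nr z))⟫ -
          ⟪(nr z).2, m.hor (nr z) (nr z' - nr z)⟫) := by
      have : z.2 = ‖z.2‖ • (nr z).2 := congrArg Prod.snd (nr_smul a.1)
      rw [nr_phi cf a.1, nr_phi cf b.1, mul_sub, ← real_inner_smul_left, ← real_inner_smul_left,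
        ← this]
      rfl
    rw [e, abs_mul]
    refine (mul_le_mul r2 h3 (abs_nonneg _) zero_le_two).trans ?_
    nlinarith [mul_le_mul_of_nonneg_left (pow_le_pow_left₀ S0 s8 2) K0.le, sq_nonneg M]

theorem cs_loc (o : m.OK) (o' : m'.OK) (cf : C0F m m' φ) (ha : 0 < a) (h : LIPF m m' φ a)
    {z₀ : V × V} (hz : ‖z₀.2‖ = 1) : ∃ U ∈ 𝓝 z₀, ∀ᵐ v : V × V, v ∈ U → CS m m' φ v := by
  obtain ⟨K, hK⟩ := chart o' cf ha h hz
  rw [nhds_prod_eq] at hK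
  obtain ⟨t, ht, t', ht', htt⟩ := mem_prod_iff.1 hK
  obtain ⟨U, hU, oU, xU⟩ := _root_.mem_nhds_iff.1 (inter_mem (inter_mem ht ht')
    (nb (norm_ne_zero_iff.1 (hz ▸ one_ne_zero))))
  refine ⟨U, oU.mem_nhds xU, cs_ae o o' oU (c := fun z => (z.1, m'.ver (φ z₀) (φ z))) (K := K)
    (continuousOn_fst.prodMk ((m'.ver (φ z₀)).continuous.comp_continuousOn
      (cf.cont.mono fun z hz => (hU hz).2))) fun v hv w hw => ?_⟩
  have := htt (mk_mem_prod (hU hw).1.1 (hU hv).1.2)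
  simp only [mem_ofPred_eq] at this ⊢
  exact this

/-- Scaling of the vector part. -/
def sc (r : ℝ) : V × V →L[ℝ] V × V := (ContinuousLinearMap.id ℝ V).prodMap (r • .id ℝ V)

theorem sc_apply (r : ℝ) (z : V × V) : sc r z = (z.1, r • z.2) := rfl

theorem hor_sc (m : MF) (r : ℝ) (z ξ : V × V) : m.hor (sc r z) (sc r ξ) = m.hor z ξ := rfl

theorem ver_sc (m : MF) (r : ℝ) (z ξ : V × V) : m.ver (sc r z) (sc r ξ) = r • m.ver z ξ := by
  simp [MF.ver, sc_apply]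

theorem sc_sc {r : ℝ} (hr : r ≠ 0) (z : V × V) : sc r (sc r⁻¹ z) = z :=
  Prod.ext rfl (smul_inv_smul₀ hr _)

theorem CS.scale (cf : C0F m m' φ) {z : V × V} (h : CS m m' φ z) (hz : z.2 ≠ 0) {r : ℝ}
    (hr : 0 < r) : CS m m' φ (sc r z) := by
  have e : ∀ w : V × V, w.2 ≠ 0 → φ (sc r w) = sc r (φ w) := fun w hw => cf.hom r w.1 w.2 hr hw
  have i : sc r⁻¹ (sc r z) = z := Prod.ext rfl (inv_smul_smul₀ hr.ne' _)
  have d : HasFDerivAt φ ((sc r).comp ((fderiv ℝ φ z).comp (sc r⁻¹))) (sc r z) := by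
    refine ((sc r).hasFDerivAt.comp _ (HasFDerivAt.comp (g := φ) (sc r z)
      (by rw [i]; exact h.dif.hasFDerivAt) (sc r⁻¹).hasFDerivAt)).congr_of_eventuallyEq ?_
    filter_upwards [nb (z := sc r z) (smul_ne_zero hr.ne' hz)] with w hw
    rw [Function.comp_apply, Function.comp_apply,
      ← e (sc r⁻¹ w) (smul_ne_zero (inv_ne_zero hr.ne') hw), sc_sc hr.ne']
  have k : ∀ ξ, fderiv ℝ φ (sc r z) ξ = sc r (fderiv ℝ φ z (sc r⁻¹ ξ)) := fun ξ => by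
    rw [d.fderiv]
    rfl
  refine ⟨d.differentiableAt, fun ξ => ?_, fun ξ η => ?_⟩
  · rw [k, e z hz, hor_sc]
    conv_rhs => rw [← sc_sc hr.ne' ξ, hor_sc]
    simp only [sc_apply r, real_inner_smul_left, h.al]
  · rw [k, k, e z hz]
    conv_rhs => rw [← sc_sc hr.ne' ξ, ← sc_sc hr.ne' η]
    simp only [hor_sc, ver_sc, real_inner_smul_left, real_inner_smul_right, ← mul_sub, h.om]

theorem cs_all (o : m.OK) (o' : m'.OK) (cf : C0F m m' φ) (ha : 0 < a) (h : LIPF m m' φ a) :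
    ∀ᵐ z : V × V, z.2 ≠ 0 ∧ CS m m' φ (nr z) := by
  have := haar
  have n0 : ∀ᵐ z : V × V, z.2 ≠ 0 :=
    (Measure.quasiMeasurePreserving_snd (μ := (volume : Measure V)) (ν := volume)).ae
      (compl_mem_ae_iff.2 (measure_singleton (0 : V)))
  have key := ae_loc (volume : Measure (V × V)) (S := {z | z.2 ≠ 0})
    (P := fun z => z.2 ≠ 0 → CS m m' φ (nr z)) fun z hz => by
      obtain ⟨U, hU, ae⟩ := cs_loc o o' cf ha h (nr_unit hz)
      have s0 : 0 < ‖z.2‖ := norm_pos_iff.2 hz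
      refine ⟨sc ‖z.2‖⁻¹ ⁻¹' U, (sc _).continuous.continuousAt.preimage_mem_nhds hU, ?_⟩
      filter_upwards [measure_eq_zero_iff_ae_notMem.1 (lip_null volume volume rfl
        (sc ‖z.2‖).lipschitz.lipschitzOnWith (ae_iff.1 ae))] with v h1 h2 h3
      have h4 : CS m m' φ (sc ‖z.2‖⁻¹ v) := by
        by_contra h5
        exact h1 ⟨_, fun h6 => h5 (h6 h2), sc_sc s0.ne' v⟩
      have := h4.scale cf (smul_ne_zero (inv_ne_zero s0.ne') h3)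
        (mul_pos (inv_pos.2 (norm_pos_iff.2 h3)) s0)
      rwa [sc_apply, sc_apply, smul_smul, mul_inv_cancel_right₀ s0.ne'] at this
  filter_upwards [n0, key] with z h1 h2 using ⟨h1, h2 h1 h1⟩

/-- Almost every unit vector is good. -/
theorem aeGd (o : m.OK) (j : m.Jac) (o' : m'.OK) (cf : C0F m m' φ) (ha : 0 < a)
    (h : LIPF m m' φ a) (dia : Dia m' φ a) :
    ∀ᵐ z : V × V, Gd m m' φ a (z.1, ‖z.2‖⁻¹ • z.2) := by
  filter_upwards [cs_all o o' cf ha h] with z hz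
  exact ⟨nr_unit hz.1, hz.2.dif, hz.2.al, hz.2.om,
    sGD m m' φ a _ o j o' cf dia (nr_unit hz.1) hz.2.dif⟩

end

end Pool.Agent.MP_3ee8cb_gt.CZA
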